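import Mathlib
import Pool.Agent.Run7.h578.ProjDefs
import Pool.Agent.Run7.h578.ProjFib
import Pool.Agent.Run7.h578.ProjMain
import Pool.Agent.Run7.h578.RatQ
import Pool.Agent.Run7.h578.RatQP
import Pool.Agent.Run7.h578.RatConj

set_option autoImplicit false

namespace Pool.Agent.Results.MP_216eb3_nt.OrbitHeights

open Pool.Agent.Helper259.AbsHt Run7.h578.Orb

/-- an ample height on a quasi-projective subset `X` of projective space: a positive multiple of
the standard absolute logarithmic height, up to a bounded function -/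
def IsAmpleHeight {n : ℕ} (X : Set (PP n)) (h : X → ℝ) : Prop :=
  ∃ a b : ℝ, 0 < a ∧ ∀ x : X, |h x - a * ht x.1| ≤ b

theorem q1 {n m : ℕ} (X : Set (PP n)) (hX : IsQuasiProjective X) (Y : Set (PP m))
    (π : X → PP m) (hπ : IsMorphism X π) (hY : ∀ x, π x ∈ Y)
    (G : Type*) [Group G] [MulAction G X] (horb : ∀ x x' : X, π x = π x' ↔ ∃ g : G, g • x = x')
    (hX' : X → ℝ) (hX'' : IsAmpleHeight X hX') (hY' : Y → ℝ) (hY'' : IsAmpleHeight Y hY') :
    Asymp (fun x : X => hY' ⟨π x, hY x⟩) (fun x : X => ⨅ g : G, hX' (g • x)) := by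
  obtain ⟨C, hC0, hC⟩ := lower X π hπ
  obtain ⟨D, hD0, hD⟩ := upper X hX π hπ
  obtain ⟨a, b, ha, hab⟩ := hX''
  obtain ⟨a', b', ha', hab'⟩ := hY''
  have hlow : ∀ x : X, a * ht x.1 - b ≤ hX' x := fun x => by
    have := (abs_le.mp (hab x)).1
    linarith
  have hupp : ∀ x : X, hX' x ≤ a * ht x.1 + b := fun x => by
    have := (abs_le.mp (hab x)).2
    linarith
  have hbdd : ∀ x : X, BddBelow (Set.range fun g : G => hX' (g • x)) := by
    intro x
    refine ⟨-b, ?_⟩
    rintro _ ⟨g, rfl⟩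
    have h1 := hlow (g • x)
    have h2 := mul_nonneg ha.le (ht_nonneg (g • x).1)
    simp only
    linarith
  -- lower constants
  set C' : ℝ := C + 1 with hC'
  have hC'0 : 0 < C' := by linarith
  refine ⟨a / (a' * C'), a / a' * D + a / a', a / (a' * C') * (a' * C' + b') + b,
    a * D + (a / a' * D + a / a') * b' + b, by positivity, by positivity, fun x => ⟨?_, ?_⟩⟩
  · apply le_ciInf
    intro g
    have h1 : π (g • x) = π x := ((horb x (g • x)).mpr ⟨g, rfl⟩).symm
    have h2 := hC (g • x)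
    rw [h1] at h2
    have h3 := (abs_le.mp (hab' ⟨π x, hY x⟩)).2
    have h4 := hlow (g • x)
    have h5 := ht_nonneg (g • x).1
    simp only at h3
    have h6 : ht (π x) ≤ C' * (1 + ht (g • x).1) := by
      rw [hC']
      nlinarith
    have h7 : hY' ⟨π x, hY x⟩ ≤ a' * (C' * (1 + ht (g • x).1)) + b' := by
      have := mul_le_mul_of_nonneg_left h6 ha'.le
      linarith
    have h8 : a / (a' * C') * hY' ⟨π x, hY x⟩ ≤
        a / (a' * C') * (a' * (C' * (1 + ht (g • x).1)) + b') :=
      mul_le_mul_of_nonneg_left h7 (by positivity)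
    have h9 : a / (a' * C') * (a' * (C' * (1 + ht (g • x).1)) + b') =
        a * ht (g • x).1 + a / (a' * C') * (a' * C' + b') := by
      field_simp
      ring
    linarith
  · obtain ⟨x', hx', hh⟩ := hD x
    obtain ⟨g, hg⟩ := (horb x x').mp hx'.symm
    have h1 : (⨅ g : G, hX' (g • x)) ≤ hX' (g • x) := ciInf_le (hbdd x) g
    rw [hg] at h1
    have h2 := hupp x'
    have h3 := (abs_le.mp (hab' ⟨π x, hY x⟩)).1
    simp only at h3
    have h4 : ht (π x) ≤ (hY' ⟨π x, hY x⟩ + b') / a' := by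
      rw [le_div_iff₀ ha']
      linarith
    have h5 := ht_nonneg (π x)
    have h6 : ht x'.1 ≤ D + (D + 1) * ht (π x) := by nlinarith
    have h7 : ht x'.1 ≤ D + (D + 1) * ((hY' ⟨π x, hY x⟩ + b') / a') := by
      have := mul_le_mul_of_nonneg_left h4 (by linarith : (0 : ℝ) ≤ D + 1)
      linarith
    have h8 := mul_le_mul_of_nonneg_left h7 ha.le
    have h9 : a * (D + (D + 1) * ((hY' ⟨π x, hY x⟩ + b') / a')) =
        (a / a' * D + a / a') * hY' ⟨π x, hY x⟩ + (a * D + (a / a' * D + a / a') * b') := by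
      field_simp
      ring
    linarith

theorem q2 (d : ℕ) (hd : d ≠ 0) {N : ℕ} (π : Rat d → PP N) (hπ : IsMorphism (Rat d) π)
    (horb : ∀ f g : Rat d, π f = π g ↔ IsConj d f.1 g.1) :
    Asymp (fun f : Rat d => ht (π f))
      (fun f : Rat d => ⨅ M : Matrix.GeneralLinearGroup (Fin 2) Qbar,
        absLogHeight (conjVec d M f.1.rep)) := by
  obtain ⟨C, hC0, hC⟩ := lower (Rat d) π hπ
  obtain ⟨D, hD0, hD⟩ := upper (Rat d) (rat_isQuasiProjective d hd) π hπ
  have hC'0 : 0 < C + 1 := by linarith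
  refine ⟨1 / (C + 1), D + 1, 1, D, by positivity, by linarith, fun f => ⟨?_, ?_⟩⟩
  · apply le_ciInf
    intro M
    have h1 : π f = π ⟨_, conj_mem d M f⟩ := (horb _ _).mpr (isConj_conj d M f)
    have h2 := hC ⟨_, conj_mem d M f⟩
    rw [← h1, ht_mk] at h2
    have h3 := absLogHeight_nonneg (conjVec d M f.1.rep)
    rw [one_div, inv_mul_eq_div, sub_le_iff_le_add, div_le_iff₀ hC'0]
    nlinarith
  · obtain ⟨g, hg, hh⟩ := hD f
    obtain ⟨M, c, hc, hM⟩ := (horb f g).mp hg.symm
    have hbdd : BddBelow (Set.range fun M : Matrix.GeneralLinearGroup (Fin 2) Qbar =>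
        absLogHeight (conjVec d M f.1.rep)) := by
      refine ⟨0, ?_⟩
      rintro _ ⟨M, rfl⟩
      exact absLogHeight_nonneg _
    refine (ciInf_le hbdd M).trans ?_
    have h1 : ht g.1 = absLogHeight (conjVec d M f.1.rep) := by
      rw [ht, hM]
      exact absLogHeight_smul _ hc
    have h2 := ht_nonneg (π f)
    rw [← h1]
    linarith

/-- Q1 (for every group acting on a quasi-projective set whose orbits are the fibres of a
surjective morphism to a quasi-projective set) and Q2. -/
theorem result :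
    (∀ (n m : ℕ) (X : Set (PP n)) (Y : Set (PP m)),
      IsQuasiProjective X → IsQuasiProjective Y →
      ∀ π : X → Y, IsMorphism X (fun x => (π x).1) → Function.Surjective π →
      ∀ (G : Type) [Group G] [MulAction G X],
        (∀ x x' : X, π x = π x' ↔ ∃ g : G, g • x = x') →
      ∀ (hX : X → ℝ) (hY : Y → ℝ), IsAmpleHeight X hX → IsAmpleHeight Y hY →
        Asymp (fun x : X => hY (π x)) (fun x : X => ⨅ g : G, hX (g • x))) ∧
    (∀ d : ℕ, 2 ≤ d → ∀ (N : ℕ) (Y : Set (PP N)), IsQuasiProjective Y →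
      ∀ π : Rat d → Y, IsMorphism (Rat d) (fun f => (π f).1) → Function.Surjective π →
        (∀ f g : Rat d, π f = π g ↔ IsConj d f.1 g.1) →
        Asymp (fun f : Rat d => ht (π f).1)
          (fun f : Rat d => ⨅ M : Matrix.GeneralLinearGroup (Fin 2) Qbar,
            absLogHeight (conjVec d M f.1.rep))) := by
  constructor
  · intro n m X Y hX _ π hπ _ G _ _ horb hX' hY' h1 h2
    exact q1 X hX Y (fun x => (π x).1) hπ (fun x => (π x).2) G
      (fun x x' => by rw [← horb x x', Subtype.ext_iff]) hX' h1 hY' h2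
  · intro d hd N Y _ π hπ _ horb
    exact q2 d (by omega) (fun f => (π f).1) hπ (fun f g => by rw [← horb f g, Subtype.ext_iff])

end Pool.Agent.Results.MP_216eb3_nt.OrbitHeights
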